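import Pool.Agent.Helper37.Arb.Goals

/-!
# Project ARB: the integer index (`GoalIndex`)
-/

set_option autoImplicit false

namespace Pool.Agent.Helper96.Arb

open Pool.Agent.Helper36.SC Pool.Agent.Helper37.Arb

variable {V W : Type}

/-- `k - n` is constant along the edges that leave on the underpass. -/
def PU (D : AltDiagram V) (k : V → ℤ) : Prop :=
  ∀ v, k (D.underNext v) - (if D.pos (D.underNext v) then 0 else 1) =
    k v - (if D.pos v then 0 else 1)

/-- `k + n` is constant along the edges that leave on the overpass. -/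
def PO (D : AltDiagram V) (k : V → ℤ) : Prop :=
  ∀ v, k (D.overNext v) + (if D.pos (D.overNext v) then 0 else 1) =
    k v + (if D.pos v then 0 else 1)

theorem swap_const [DecidableEq V] (f : V → ℤ) {a b : V} (h : f a = f b) (v : V) :
    f (Equiv.swap a b v) = f v := by
  rw [Equiv.swap_apply_def]
  split_ifs with h1 h2
  · rw [h1, h]
  · rw [h2, h]
  · rfl

theorem pu_union {D : AltDiagram V} {E : AltDiagram W} {k₁ : V → ℤ} {k₂ : W → ℤ}
    (h₁ : PU D k₁) (h₂ : PU E k₂) : PU (union D E) (Sum.elim k₁ k₂) := by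
  rintro (v | w)
  · exact h₁ v
  · exact h₂ w

theorem po_union {D : AltDiagram V} {E : AltDiagram W} {k₁ : V → ℤ} {k₂ : W → ℤ}
    (h₁ : PO D k₁) (h₂ : PO E k₂) : PO (union D E) (Sum.elim k₁ k₂) := by
  rintro (v | w)
  · exact h₁ v
  · exact h₂ w

theorem pu_swapUnder [DecidableEq V] {D : AltDiagram V} {k : V → ℤ} (h : PU D k) {a b : V}
    (ha : k a - (if D.pos a then 0 else 1) = 0) (hb : k b - (if D.pos b then 0 else 1) = 0) :
    PU (swapUnder D a b) k := by
  intro v
  have h1 := h (Equiv.swap a b v)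
  have h2 := swap_const (fun v => k v - (if D.pos v then 0 else 1)) (ha.trans hb.symm) v
  exact h1.trans h2

theorem po_swapOver [DecidableEq V] {D : AltDiagram V} {k : V → ℤ} (h : PO D k) {a b : V}
    (ha : k a + (if D.pos a then 0 else 1) = 0) (hb : k b + (if D.pos b then 0 else 1) = 0) :
    PO (swapOver D a b) k := by
  intro v
  have h1 := h (Equiv.swap a b v)
  have h2 := swap_const (fun v => k v + (if D.pos v then 0 else 1)) (ha.trans hb.symm) v
  exact h1.trans h2

theorem po_swapUnder [DecidableEq V] {D : AltDiagram V} {k : V → ℤ} (h : PO D k) (a b : V) :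
    PO (swapUnder D a b) k := h

theorem pu_swapOver [DecidableEq V] {D : AltDiagram V} {k : V → ℤ} (h : PU D k) (a b : V) :
    PU (swapOver D a b) k := h

/-- INDEX. -/
theorem index : GoalIndex := by
  intro s t
  induction t with
  | cross =>
    refine ⟨fun _ => 0, ?_, ?_, ?_, ?_⟩ <;> simp [Tangle.diag]
  | stack S T ihS ihT =>
    obtain ⟨k₁, a1, a2, a3, a4⟩ := ihS
    obtain ⟨k₂, b1, b2, b3, b4⟩ := ihT
    rw [if_pos rfl] at a4 b4
    refine ⟨Sum.elim k₁ k₂, ?_, ?_, b3, ?_⟩
    · exact pu_swapOver (pu_swapUnder (a := Sum.inl S.diag.l) (b := Sum.inr T.diag.l)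
        (pu_union (D := S.diag.D) (E := T.diag.D) a1 b1) a3 b3) _ _
    · exact po_swapOver (po_swapUnder (po_union (D := S.diag.D) (E := T.diag.D) a2 b2) _ _) a4 b4
    · rw [if_pos rfl]
      exact b4
  | beside P T ihS ihT =>
    obtain ⟨k₁, a1, a2, a3, a4⟩ := ihS
    obtain ⟨k₂, b1, b2, b3, b4⟩ := ihT
    rw [if_pos rfl] at b4
    rw [if_neg Bool.false_ne_true] at a4
    refine ⟨Sum.elim k₁ k₂, ?_, ?_, a3, ?_⟩
    · exact pu_swapUnder (pu_union (D := P.diag.D) (E := T.diag.D) a1 b1) a4 b3
    · exact po_swapUnder (po_union (D := P.diag.D) (E := T.diag.D) a2 b2) _ _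
    · rw [if_pos rfl]
      exact b4
  | flip T ih =>
    obtain ⟨k, a1, a2, a3, a4⟩ := ih
    rw [if_pos rfl] at a4
    refine ⟨fun v => -k v, ?_, ?_, ?_, ?_⟩
    · intro v
      have h := a2 v
      show -k (T.diag.D.overNext v) - (if T.diag.D.pos (T.diag.D.overNext v) then 0 else 1) =
        -k v - (if T.diag.D.pos v then 0 else 1)
      linarith
    · intro v
      have h := a1 v
      show -k (T.diag.D.underNext v) + (if T.diag.D.pos (T.diag.D.underNext v) then 0 else 1) =
        -k v + (if T.diag.D.pos v then 0 else 1)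
      linarith
    · show -k T.diag.r - (if T.diag.D.pos T.diag.r then 0 else 1) = 0
      linarith
    · rw [if_pos rfl]
      show -k T.diag.l + (if T.diag.D.pos T.diag.l then 0 else 1) = 0
      linarith
  | opposite S T ihS ihT =>
    obtain ⟨k₁, a1, a2, a3, a4⟩ := ihS
    obtain ⟨k₂, b1, b2, b3, b4⟩ := ihT
    rw [if_pos rfl] at a4 b4
    refine ⟨Sum.elim k₁ k₂, ?_, ?_, a3, ?_⟩
    · exact pu_swapOver (pu_union (D := S.diag.D) (E := T.diag.D) a1 b1) _ _
    · exact po_swapOver (po_union (D := S.diag.D) (E := T.diag.D) a2 b2) a4 b4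
    · rw [if_neg Bool.false_ne_true]
      exact b3
  | sum P Q ihS ihT =>
    obtain ⟨k₁, a1, a2, a3, a4⟩ := ihS
    obtain ⟨k₂, b1, b2, b3, b4⟩ := ihT
    rw [if_neg Bool.false_ne_true] at a4 b4
    refine ⟨Sum.elim k₁ k₂, ?_, ?_, a3, ?_⟩
    · exact pu_swapUnder (pu_union (D := P.diag.D) (E := Q.diag.D) a1 b1) a4 b3
    · exact po_swapUnder (po_union (D := P.diag.D) (E := Q.diag.D) a2 b2) _ _
    · rw [if_neg Bool.false_ne_true]
      exact b4
  | turn P ih =>
    obtain ⟨k, a1, a2, a3, a4⟩ := ih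
    rw [if_neg Bool.false_ne_true] at a4
    have key : ∀ b : Bool, (if !b then (0 : ℤ) else 1) = 1 - (if b then 0 else 1) := by
      intro b
      cases b <;> rfl
    refine ⟨fun v => 1 - k v, ?_, ?_, ?_, ?_⟩
    · intro v
      have h := pu_swapUnder (D := P.diag.D) a1 a3 a4 v
      show 1 - k ((swapUnder P.diag.D P.diag.l P.diag.r).underNext v) -
        (if !P.diag.D.pos ((swapUnder P.diag.D P.diag.l P.diag.r).underNext v) then 0 else 1) =
        1 - k v - (if !P.diag.D.pos v then 0 else 1)
      rw [key, key]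
      change k ((swapUnder P.diag.D P.diag.l P.diag.r).underNext v) -
        (if P.diag.D.pos ((swapUnder P.diag.D P.diag.l P.diag.r).underNext v) then 0 else 1) =
        k v - (if P.diag.D.pos v then 0 else 1) at h
      linarith
    · intro v
      have h := a2 v
      show 1 - k (P.diag.D.overNext v) + (if !P.diag.D.pos (P.diag.D.overNext v) then 0 else 1) =
        1 - k v + (if !P.diag.D.pos v then 0 else 1)
      rw [key, key]
      linarith
    · show 1 - k P.diag.l - (if !P.diag.D.pos P.diag.l then 0 else 1) = 0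
      rw [key]
      linarith
    · rw [if_neg Bool.false_ne_true]
      show 1 - k P.diag.r - (if !P.diag.D.pos P.diag.r then 0 else 1) = 0
      rw [key]
      linarith

end Pool.Agent.Helper96.Arb
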